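import Pool.Agent.Y344.KD.Final

/-! The levels of random sub-arrangements of lines: all survival rates. -/

set_option autoImplicit false

namespace Pool.Agent.R769.KR

open Finset Pool.Agent.H189R2.Lev
open scoped Topology

open Pool.Agent.Results.MP_a08d0a_co.SmoothedLevel (Simple psi level)

open Pool.Agent.Y344.KD (sub simple_sub random_deletions)

/-- renumbering the lines does not change the number of vertices of a level -/
theorem psi_reindex {m n : ℕ} (σ : Fin m ≃ Fin n) (a B : Fin n → ℝ) (k : ℕ) :
    psi (a ∘ σ) (B ∘ σ) k = psi a B k := by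
  have hl : ∀ x, level (a ∘ σ) (B ∘ σ) k x = level a B k x := by
    intro x
    unfold level
    congr 1
    ext y
    simp only [Set.mem_ofPred_eq]
    have : {l | ht (a ∘ σ) (B ∘ σ) l x ≤ y}.ncard = {l | ht a B l x ≤ y}.ncard := by
      rw [← Set.ncard_image_of_injective _ σ.injective]
      congr 1
      ext l
      simp only [Set.mem_image, Set.mem_ofPred_eq]
      constructor
      · rintro ⟨l', h, rfl⟩
        exact h
      · intro h
        exact ⟨σ.symm l, by
          show a (σ (σ.symm l)) * x + B (σ (σ.symm l)) ≤ y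
          rw [Equiv.apply_symm_apply]
          exact h, Equiv.apply_symm_apply σ l⟩
    rw [this]
  have hl' : level (a ∘ σ) (B ∘ σ) k = level a B k := funext hl
  unfold psi
  rw [hl']
  congr 1
  ext x
  simp only [Set.mem_ofPred_eq]
  apply not_congr
  constructor
  · rintro ⟨l, h⟩
    exact ⟨σ l, h⟩
  · rintro ⟨l, h⟩
    refine ⟨σ.symm l, ?_⟩
    have : ht (a ∘ σ) (B ∘ σ) (σ.symm l) = ht a B l := by
      funext x
      show a (σ (σ.symm l)) * x + B (σ (σ.symm l)) = a l * x + B l
      rw [Equiv.apply_symm_apply]
    rw [this]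
    exact h

/-- the number of vertices of the `k`-level of the lines of `R`, and `0` if `R` has at most `k`
lines -/
noncomputable def lv {n : ℕ} (a B : Fin n → ℝ) (k : ℕ) (R : Finset (Fin n)) : ℕ :=
  if k < R.card then (psi (sub a R) (sub B R) k).toNat else 0

theorem lv_sub {n : ℕ} (a B : Fin n → ℝ) (k : ℕ) (R : Finset (Fin n)) (S : Finset (Fin R.card)) :
    lv (sub a R) (sub B R) k S = lv a B k (S.map (R.orderEmbOfFin rfl).toEmbedding) := by
  set e := R.orderEmbOfFin rfl with he
  set U := S.map e.toEmbedding with hU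
  have hc : U.card = S.card := card_map _
  have hmem : ∀ i : Fin S.card, e (S.orderEmbOfFin rfl i) ∈ U := by
    intro i
    rw [hU, mem_map]
    exact ⟨_, Finset.orderEmbOfFin_mem _ _ i, rfl⟩
  have hsur : ∀ u ∈ U, ∃ j : Fin U.card, U.orderEmbOfFin rfl j = u := by
    intro u hu
    have := Finset.range_orderEmbOfFin U (rfl : U.card = U.card)
    have h : u ∈ Set.range (U.orderEmbOfFin rfl) := by rw [this]; exact_mod_cast hu
    exact h
  choose f hf using fun i : Fin S.card => hsur _ (hmem i)
  have hbij : Function.Bijective f := by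
    rw [Fintype.bijective_iff_injective_and_card]
    refine ⟨?_, by simp [hc]⟩
    intro i j hij
    have h1 := hf i
    have h2 := hf j
    rw [hij, h2] at h1
    exact ((S.orderEmbOfFin rfl).injective (e.injective h1)).symm
  set σ := Equiv.ofBijective _ hbij with hσ
  have ha : ∀ g : Fin n → ℝ, sub (sub g R) S = sub g U ∘ σ := by
    intro g
    funext i
    show g (e (S.orderEmbOfFin rfl i)) = g (U.orderEmbOfFin rfl (f i))
    rw [hf i]
  unfold lv
  rw [ha a, ha B, psi_reindex]
  by_cases h : k < S.card
  · rw [if_pos h, if_pos (by rw [hc]; exact h)]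
  · rw [if_neg h, if_neg (by rw [hc]; exact h)]

/-- the mean over the subsets, rate at least `1 / 2` -/
theorem high_rate {n : ℕ} {a B : Fin n → ℝ} (hS : Simple a B) (k : ℕ) {s : ℝ} (hs : 1 / 2 ≤ s)
    (hs1 : s < 1) :
    ∑ R : Finset (Fin n), s ^ R.card * (1 - s) ^ (n - R.card) * (lv a B k R : ℝ) ≤
      2000 * n * (((k : ℝ) + 1) / (1 - s)) ^ (1 / 6 : ℝ) := by
  classical
  have h := (random_deletions hS k (r := 1 - s) (by linarith) (by linarith)).2
  refine le_trans (le_of_eq ?_) h
  rw [sum_filter]
  apply sum_nbij' (fun R => Rᶜ) (fun D => Dᶜ)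
  · intro R _; exact mem_univ _
  · intro R _; exact mem_univ _
  · intro R _; exact compl_compl R
  · intro R _; exact compl_compl R
  · intro R _
    have hle : R.card ≤ n := by
      have := Finset.card_le_univ R
      rwa [Fintype.card_fin] at this
    have hc : Rᶜ.card = n - R.card := by rw [card_compl, Fintype.card_fin]
    unfold lv
    rw [compl_compl, hc, show n - (n - R.card) = R.card by omega,
      show (1 : ℝ) - (1 - s) = s by ring]
    split_ifs
    · ring
    · simp

/-- two-stage sampling -/
theorem two_stage {n : ℕ} (s : ℝ) (F : Finset (Fin n) → ℝ) :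
    ∑ R : Finset (Fin n), s ^ R.card * (1 - s) ^ (n - R.card) * F R =
      ∑ U : Finset (Fin n), (2 * s) ^ U.card * (1 - 2 * s) ^ (n - U.card) *
        ∑ R ∈ U.powerset, (1 / 2) ^ U.card * F R := by
  classical
  have e1 : ∀ U : Finset (Fin n), (2 * s) ^ U.card * (1 - 2 * s) ^ (n - U.card) *
        ∑ R ∈ U.powerset, (1 / 2) ^ U.card * F R =
      ∑ R : Finset (Fin n), if R ⊆ U then s ^ U.card * (1 - 2 * s) ^ (n - U.card) * F R else 0 := by
    intro U
    rw [mul_sum, ← sum_filter]
    have : (univ.filter (fun R : Finset (Fin n) => R ⊆ U)) = U.powerset := by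
      ext R; simp
    rw [this]
    apply sum_congr rfl
    intro R _
    rw [mul_pow]
    have : (2 : ℝ) ^ U.card * (1 / 2) ^ U.card = 1 := by
      rw [← mul_pow]; norm_num
    calc 2 ^ U.card * s ^ U.card * (1 - 2 * s) ^ (n - U.card) * ((1 / 2) ^ U.card * F R) =
          (2 ^ U.card * (1 / 2) ^ U.card) * (s ^ U.card * (1 - 2 * s) ^ (n - U.card) * F R) := by
          ring
      _ = _ := by rw [this, one_mul]
  rw [sum_congr rfl (fun U _ => e1 U), sum_comm]
  apply sum_congr rfl
  intro R _
  rw [← sum_filter, ← sum_mul]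
  congr 1
  have hR : R.card ≤ n := by
    have := Finset.card_le_univ R
    rwa [Fintype.card_fin] at this
  have h2 : ∑ U ∈ univ.filter (fun U : Finset (Fin n) => R ⊆ U),
      s ^ U.card * (1 - 2 * s) ^ (n - U.card) =
      ∑ V ∈ Rᶜ.powerset, s ^ R.card * (s ^ V.card * (1 - 2 * s) ^ (Rᶜ.card - V.card)) := by
    symm
    apply sum_nbij' (fun V => R ∪ V) (fun U => U \ R)
    · intro V _
      rw [mem_filter]
      exact ⟨mem_univ _, subset_union_left⟩
    · intro U _
      rw [mem_powerset]
      intro x hx
      rw [mem_sdiff] at hx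
      exact mem_compl.mpr hx.2
    · intro V hV
      rw [mem_powerset] at hV
      ext x
      rw [mem_sdiff, mem_union]
      constructor
      · rintro ⟨h | h, h'⟩
        · exact absurd h h'
        · exact h
      · intro h
        exact ⟨Or.inr h, mem_compl.mp (hV h)⟩
    · intro U hU
      rw [mem_filter] at hU
      exact union_sdiff_of_subset hU.2
    · intro V hV
      rw [mem_powerset] at hV
      have hd : Disjoint R V := by
        rw [disjoint_left]
        intro x hx hxV
        exact (mem_compl.mp (hV hxV)) hx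
      have hV2 : V.card ≤ Rᶜ.card := card_le_card hV
      rw [card_union_of_disjoint hd, card_compl, Fintype.card_fin] at *
      rw [pow_add, show n - (R.card + V.card) = n - R.card - V.card by omega]
      ring
  rw [h2, ← mul_sum]
  have h3 := Finset.sum_pow_mul_eq_add_pow s (1 - 2 * s) Rᶜ
  rw [h3, card_compl, Fintype.card_fin, show s + (1 - 2 * s) = 1 - s by ring]

/-- the mean over the subsets, all rates -/
theorem all_rates {n : ℕ} {a B : Fin n → ℝ} (hS : Simple a B) (k : ℕ) {s : ℝ} (hs0 : 0 < s)
    (hs1 : s < 1) :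
    ∑ R : Finset (Fin n), s ^ R.card * (1 - s) ^ (n - R.card) * (lv a B k R : ℝ) ≤
      4500 * (s * n) * (((k : ℝ) + 1) / (1 - s)) ^ (1 / 6 : ℝ) := by
  classical
  have hk1 : (0 : ℝ) < (k : ℝ) + 1 := by positivity
  have h1s : 0 < 1 - s := by linarith
  have hn0 : (0 : ℝ) ≤ n := Nat.cast_nonneg n
  rcases le_total (1 / 2) s with h | h
  · refine (high_rate hS k h hs1).trans ?_
    have hg : 0 ≤ n * (((k : ℝ) + 1) / (1 - s)) ^ (1 / 6 : ℝ) := by positivity
    nlinarith
  · rw [two_stage]
    set G : ℝ := ((k : ℝ) + 1) ^ (1 / 6 : ℝ) with hG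
    have hG0 : 0 < G := by positivity
    have hin : ∀ U : Finset (Fin n), ∑ R ∈ U.powerset, (1 / 2 : ℝ) ^ U.card * (lv a B k R : ℝ) ≤
        2250 * U.card * G := by
      intro U
      have h1 := high_rate (simple_sub hS U) k (s := 1 / 2) le_rfl (by norm_num)
      have h2 : ∑ R ∈ U.powerset, (1 / 2 : ℝ) ^ U.card * (lv a B k R : ℝ) =
          ∑ S : Finset (Fin U.card), (1 / 2) ^ S.card * (1 - 1 / 2) ^ (U.card - S.card) *
            (lv (sub a U) (sub B U) k S : ℝ) := by
        symm
        set e := U.orderEmbOfFin rfl with he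
        have hmem : ∀ i, e i ∈ U := fun i => Finset.orderEmbOfFin_mem _ _ i
        have hsurj : ∀ l ∈ U, ∃ i, e i = l := by
          intro l hl
          have := Finset.range_orderEmbOfFin U (rfl : U.card = U.card)
          have h : l ∈ Set.range e := by rw [he, this]; exact_mod_cast hl
          exact h
        apply sum_nbij' (fun S => S.map e.toEmbedding) (fun R => univ.filter (fun i => e i ∈ R))
        · intro S _
          rw [mem_powerset]
          intro x hx
          rw [mem_map] at hx
          obtain ⟨i, -, rfl⟩ := hx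
          exact hmem i
        · intro R _; exact mem_univ _
        · intro S _
          ext i
          rw [mem_filter, mem_map]
          constructor
          · rintro ⟨-, j, hj, hji⟩
            rw [← e.injective hji]
            exact hj
          · intro hi
            exact ⟨mem_univ _, i, hi, rfl⟩
        · intro R hR
          rw [mem_powerset] at hR
          ext x
          rw [mem_map]
          constructor
          · rintro ⟨i, hi, rfl⟩
            exact (mem_filter.mp hi).2
          · intro hx
            obtain ⟨i, hi⟩ := hsurj x (hR hx)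
            exact ⟨i, mem_filter.mpr ⟨mem_univ _, by rw [hi]; exact hx⟩, hi⟩
        · intro S _
          have hle : S.card ≤ U.card := by
            have := Finset.card_le_univ S
            rwa [Fintype.card_fin] at this
          rw [← lv_sub, show (1 : ℝ) - 1 / 2 = 1 / 2 by norm_num, ← pow_add,
            show S.card + (U.card - S.card) = U.card by omega]
      rw [h2]
      refine h1.trans ?_
      have h3 : (((k : ℝ) + 1) / (1 - 1 / 2)) ^ (1 / 6 : ℝ) ≤ 9 / 8 * G := by
        rw [show ((k : ℝ) + 1) / (1 - 1 / 2) = 2 * ((k : ℝ) + 1) by ring,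
          Real.mul_rpow (by norm_num) hk1.le]
        apply mul_le_mul_of_nonneg_right _ hG0.le
        have : ((2 : ℝ) ^ (1 / 6 : ℝ)) ^ 6 ≤ (9 / 8 : ℝ) ^ 6 := by
          rw [← Real.rpow_natCast, ← Real.rpow_mul (by norm_num)]
          norm_num
        exact le_of_pow_le_pow_left₀ (by norm_num) (by norm_num) this
      calc 2000 * (U.card : ℝ) * (((k : ℝ) + 1) / (1 - 1 / 2)) ^ (1 / 6 : ℝ) ≤
            2000 * (U.card : ℝ) * (9 / 8 * G) := by gcongr
        _ = 2250 * U.card * G := by ring
    have hmean : ∑ U : Finset (Fin n), (2 * s) ^ U.card * (1 - 2 * s) ^ (n - U.card) *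
        (U.card : ℝ) = n * (2 * s) := by
      have := Pool.Agent.Y344.KD.sum_wt_card (n := n) (2 * s)
      unfold Pool.Agent.Y344.KD.wt at this
      exact this
    calc ∑ U : Finset (Fin n), (2 * s) ^ U.card * (1 - 2 * s) ^ (n - U.card) *
          ∑ R ∈ U.powerset, (1 / 2 : ℝ) ^ U.card * (lv a B k R : ℝ) ≤
          ∑ U : Finset (Fin n), (2 * s) ^ U.card * (1 - 2 * s) ^ (n - U.card) *
            (2250 * U.card * G) := by
          apply sum_le_sum
          intro U _
          apply mul_le_mul_of_nonneg_left (hin U)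
          have : 0 ≤ 1 - 2 * s := by linarith
          positivity
      _ = 2250 * G * ∑ U : Finset (Fin n), (2 * s) ^ U.card * (1 - 2 * s) ^ (n - U.card) *
            (U.card : ℝ) := by
          rw [mul_sum]
          apply sum_congr rfl
          intro U _
          ring
      _ = 4500 * (s * n) * G := by rw [hmean]; ring
      _ ≤ _ := by
          have h4 : G ≤ (((k : ℝ) + 1) / (1 - s)) ^ (1 / 6 : ℝ) := by
            apply Real.rpow_le_rpow hk1.le _ (by norm_num)
            rw [le_div_iff₀ h1s]
            nlinarith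
          gcongr

end Pool.Agent.R769.KR
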